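import Mathlib
import Pool.Graph.R_seed8.H906R3.YM.Conc
import Pool.Graph.R_seed8.W793.YM.Inf
import Pool.Graph.R_seed8.TH618.YM.Cartan
import Pool.Agent.H55.YM.Path
import Pool.Agent.H55.YM.Src
import Pool.Agent.H55.YM.Dbl

/-!
# Lattice Yang-Mills theory in four dimensions: the string tension is at most `C log β / β ^ 3`

Wilson's lattice gauge theory on `ℤ ^ 4` with gauge group an arbitrary closed subgroup `G` of `U(N)`
at the inverse coupling `β`. There is a constant `C`, which depends only on `N`, such that for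
`β ≥ C` and every infinite volume limit of the theories on the periodic lattices of even side the
static potential `V(R) = - lim_T (1/T) log ⟨(1/N) Re tr U(R × T)⟩` of the rectangular Wilson loops
exists, the string tension `σ = lim_R V(R) / R` exists and is the limit of
`- log ⟨(1/N) Re tr U(R × T)⟩ / (R T)` as both sides `R` and `T` tend to infinity, and
`0 ≤ σ ≤ C log β / β ^ 3`.
-/

open MeasureTheory Matrix Filter
open scoped Matrix.Norms.Frobenius Topology ContDiff

namespace Pool.Agent.Results.MP_7f377f_mp.StringTensionCubic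

set_option linter.unusedSectionVars false

noncomputable section

/-- Complex `N × N` matrices. -/
abbrev Mt (N : ℕ) := Matrix (Fin N) (Fin N) ℂ

/-- The unitary group `U(N)`. -/
abbrev UU (N : ℕ) := Matrix.unitaryGroup (Fin N) ℂ

/-- The matrix of an element of a subgroup of `U(N)`. -/
def mt {N : ℕ} {G : Subgroup (UU N)} (g : G) : Mt N := ((g : UU N) : Mt N)

/-- Links of the periodic lattice `(ℤ/l)^4`: base point and direction. -/
abbrev Link (l : ℕ) := (Fin 4 → ZMod l) × Fin 4

/-- Links of the lattice `ℤ^4`: base point and direction. -/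
abbrev LinkZ := (Fin 4 → ℤ) × Fin 4

section

variable {N n l : ℕ} {G : Subgroup (UU N)}

/-- The product of the link variables around the plaquette at `x` in the directions `i`, `j`. -/
def plaq (U : Link l → G) (x : Fin 4 → ZMod l) (i j : Fin 4) : G :=
  U (x, i) * U (x + Pi.single i 1, j) * (U (x + Pi.single j 1, i))⁻¹ * (U (x, j))⁻¹

/-- The Wilson action `∑_p Re tr (1 - U_p)`, the sum over the plaquettes. -/
def action [NeZero l] (U : Link l → G) : ℝ :=
  ∑ x : Fin 4 → ZMod l, ∑ i : Fin 4, ∑ j : Fin 4,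
    if i < j then (trace (1 - mt (plaq U x i j))).re else 0

/-- The periodic extension of a configuration. -/
def per (U : Link l → G) : LinkZ → G := fun e => U (fun i => (e.1 i : ZMod l), e.2)

/-- The expectation of `F` in the lattice Yang-Mills theory on `(ℤ/l)^4`, `μ` being the Haar
measure. -/
def expect (l : ℕ) [NeZero l] [MeasurableSpace G] (μ : Measure G) (β : ℝ)
    (F : (LinkZ → G) → ℝ) : ℝ :=
  (∫ U : Link l → G, F (per U) * Real.exp (-(β * action U)) ∂(Measure.pi fun _ => μ)) /
    ∫ U : Link l → G, Real.exp (-(β * action U)) ∂(Measure.pi fun _ => μ)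

/-- `ν` is an infinite volume limit (weak limit along a subsequence) of the theories on the tori of
even side at inverse coupling `β`. -/
structure IsInfVol [MeasurableSpace G] (μ : Measure G) (β : ℝ)
    (ν : Measure (LinkZ → G)) : Prop where
  prob : IsProbabilityMeasure ν
  lim : ∃ s : ℕ → ℕ, Tendsto s atTop atTop ∧ ∀ F : (LinkZ → G) → ℝ, Continuous F →
    Tendsto (fun j => expect (2 * (s j + 1)) μ β F) atTop (𝓝 (∫ V, F V ∂ν))

/-- The product of the link variables along the path of `k` steps in the direction `i` from `x`. -/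
def line (V : LinkZ → G) (i : Fin 4) : ℕ → (Fin 4 → ℤ) → G
  | 0, _ => 1
  | k + 1, x => V (x, i) * line V i k (x + Pi.single i 1)

/-- The product of the link variables around the rectangle with corner `x` and with the sides `R`
in the direction `i` and `T` in the direction `j`. -/
def loop (V : LinkZ → G) (x : Fin 4 → ℤ) (i j : Fin 4) (R T : ℕ) : G :=
  line V i R x * line V j T (x + Pi.single i (R : ℤ)) *
    (line V i R (x + Pi.single j (T : ℤ)))⁻¹ * (line V j T x)⁻¹

/-- The Wilson loop: the expectation of `(1/N) Re tr` of the product around the rectangle. -/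
def wilson [MeasurableSpace G] (ν : Measure (LinkZ → G)) (x : Fin 4 → ℤ) (i j : Fin 4)
    (R T : ℕ) : ℝ := ∫ V, (trace (mt (loop V x i j R T))).re / N ∂ν

end

open Pool.Agent.H906R3 Pool.Agent.W793 Pool.Agent.TH618

variable {N n l : ℕ} {G : Subgroup (UU N)}

/-- A Haar probability measure is invariant under right multiplications. -/
lemma right_inv {H : Type*} [Group H] [TopologicalSpace H] [IsTopologicalGroup H]
    [CompactSpace H] [MeasurableSpace H] [BorelSpace H] (μ : Measure H)
    [IsProbabilityMeasure μ] [μ.IsHaarMeasure] : μ.IsMulRightInvariant := by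
  refine ⟨fun g => ?_⟩
  have h1 : IsProbabilityMeasure (Measure.map (fun x => x * g) μ) :=
    Measure.isProbabilityMeasure_map (measurable_mul_const g).aemeasurable
  exact Measure.isHaarMeasure_eq_of_isProbabilityMeasure _ _

/-- A Haar probability measure is invariant under the inversion. -/
lemma inv_inv' {H : Type*} [Group H] [TopologicalSpace H] [IsTopologicalGroup H]
    [CompactSpace H] [MeasurableSpace H] [BorelSpace H] (μ : Measure H)
    [IsProbabilityMeasure μ] [μ.IsHaarMeasure] : μ.IsInvInvariant := by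
  have hr := right_inv μ
  refine ⟨?_⟩
  have h1 : IsProbabilityMeasure μ.inv :=
    Measure.isProbabilityMeasure_map measurable_inv.aemeasurable
  have h2 : μ.inv.IsMulLeftInvariant := inferInstance
  have h3 : μ.inv.IsHaarMeasure :=
    Measure.isHaarMeasure_of_isCompact_nonempty_interior μ.inv Set.univ isCompact_univ
      (by simp) (by simp) (by simp)
  exact Measure.isHaarMeasure_eq_of_isProbabilityMeasure _ _

lemma action_eq [NeZero l] (B : YM.Frame G n) (U : Link l → G) :
    action U = YM.act B.toLD U := rfl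

section bridge

variable [CompactSpace G] [SecondCountableTopology G] [MeasurableSpace G] [BorelSpace G]
  (μ : Measure G) [IsProbabilityMeasure μ] [μ.IsHaarMeasure] (B : YM.Frame G n)

lemma expect_eq [NeZero l] (β : ℝ) (F : (LinkZ → G) → ℝ) : expect l μ β F =
    YM.EX μ B.toLD β (fun U : YM.Ed 4 l → G => F (YM.lf U)) := by
  unfold expect YM.EX YM.Zt
  simp only [one_mul]
  rfl

include B in
lemma action_cont [NeZero l] : Continuous (action : (Link l → G) → ℝ) :=
  YM.act_cont (L := B.toLD)

lemma per_cont : Continuous (per : (Link l → G) → LinkZ → G) :=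
  continuous_pi fun _ => continuous_apply _

include B in
/-- existence of infinite volume limits -/
lemma exists_infVol (β : ℝ) : ∃ ν : Measure (LinkZ → G), IsInfVol μ β ν := by
  have hP : ∀ j : ℕ, ∃ P : ProbabilityMeasure (LinkZ → G),
      ∀ F : (LinkZ → G) → ℝ, Continuous F →
        ∫ V, F V ∂(P : Measure (LinkZ → G)) = expect (2 * (j + 1)) μ β F := by
    intro j
    have hper : Continuous (per : (Link (2 * (j + 1)) → G) → LinkZ → G) := per_cont
    have hexp : Continuous fun U : Link (2 * (j + 1)) → G =>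
        Real.exp (-(β * action U)) :=
      Real.continuous_exp.comp (continuous_const.mul (action_cont B)).neg
    have hint : Integrable (fun U : Link (2 * (j + 1)) → G =>
        Real.exp (-(β * action U))) (Measure.pi fun _ => μ) :=
      hexp.integrable_of_hasCompactSupport (HasCompactSupport.of_compactSpace _)
    have h1 := isProbabilityMeasure_tilted (f := fun U : Link (2 * (j + 1)) → G =>
      -(β * action U)) hint
    refine ⟨⟨((Measure.pi fun _ => μ).tilted fun U : Link (2 * (j + 1)) → G =>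
      -(β * action U)).map per, Measure.isProbabilityMeasure_map hper.aemeasurable⟩,
      fun F hF => ?_⟩
    show ∫ V, F V ∂(((Measure.pi fun _ => μ).tilted fun U : Link (2 * (j + 1)) → G =>
      -(β * action U)).map per) = _
    rw [integral_map hper.aemeasurable hF.aestronglyMeasurable, integral_tilted]
    unfold expect
    rw [← integral_div]
    refine integral_congr_ae (Filter.Eventually.of_forall fun U => ?_)
    simp only [smul_eq_mul]
    ring
  choose P hP using hP
  obtain ⟨ν, s, hs, hlim⟩ := CompactSpace.tendsto_subseq P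
  refine ⟨ν, ⟨inferInstance, s, hs.tendsto_atTop, fun F hF => ?_⟩⟩
  have h1 := (ProbabilityMeasure.tendsto_iff_forall_integral_tendsto.1 hlim)
    (BoundedContinuousFunction.mkOfCompact ⟨F, hF⟩)
  simp only [Function.comp_apply, BoundedContinuousFunction.mkOfCompact_apply,
    ContinuousMap.coe_mk] at h1
  simpa only [hP _ F hF] using h1

/-- straight lines in a periodic configuration -/
lemma line_lf (U : YM.Ed 4 l → G) (i : Fin 4) (k : ℕ) (x : Fin 4 → ℤ) :
    line (YM.lf U) i k x = YM.ln U i k (YM.zt l x) := by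
  induction k generalizing x with
  | zero => rfl
  | succ k ih =>
    rw [YM.ln_succ]
    show YM.lf U (x, i) * line (YM.lf U) i k (x + Pi.single i 1) = _
    rw [ih, YM.zt_add]
    rfl

lemma zt_nsmul (x : Fin 4 → ℤ) (i : Fin 4) (k : ℕ) :
    YM.zt l (x + Pi.single i (k : ℤ)) = YM.zt l x + k • YM.eT i := by
  funext j
  unfold YM.zt YM.eT
  by_cases h : j = i
  · subst h; simp
  · simp [h]

lemma loop_lf (U : YM.Ed 4 l → G) (x : Fin 4 → ℤ) (i j : Fin 4) (R T : ℕ) :
    loop (YM.lf U) x i j R T = YM.rect U (YM.zt l x) i j R T := by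
  unfold loop YM.rect
  rw [line_lf, line_lf, line_lf, line_lf, zt_nsmul, zt_nsmul]

lemma line_cont (i : Fin 4) (k : ℕ) (x : Fin 4 → ℤ) :
    Continuous fun V : LinkZ → G => line V i k x := by
  induction k generalizing x with
  | zero => exact continuous_const
  | succ k ih => exact (continuous_apply _).mul (ih _)

lemma loop_cont (x : Fin 4 → ℤ) (i j : Fin 4) (R T : ℕ) :
    Continuous fun V : LinkZ → G => (trace (mt (loop V x i j R T))).re / N := by
  have h1 : Continuous fun V : LinkZ → G => loop V x i j R T :=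
    (((line_cont _ _ _).mul (line_cont _ _ _)).mul (line_cont _ _ _).inv).mul (line_cont _ _ _).inv
  have h2 : Continuous (mt : G → Mt N) := continuous_subtype_val.comp continuous_subtype_val
  exact (Complex.continuous_re.comp (h2.comp h1).matrix_trace).div_const _

lemma expect_loop [NeZero l] (β : ℝ) (x : Fin 4 → ℤ) (i j : Fin 4) (R T : ℕ) :
    expect l μ β (fun V : LinkZ → G => (trace (mt (loop V x i j R T))).re / N) =
      YM.EX μ B.toLD β (fun U : YM.Ed 4 l → G => YM.rt B.toLD (YM.rect U 0 i j R T)) / N := by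
  have := right_inv μ
  have := inv_inv' μ
  rw [expect_eq μ B]
  have h1 : (fun U : YM.Ed 4 l → G => (trace (mt (loop (YM.lf U) x i j R T))).re / N) =
      fun U => (1 / (N : ℝ)) * YM.rt B.toLD (YM.rect (YM.tr (YM.zt l x) U) 0 i j R T) := by
    funext U
    rw [loop_lf, YM.rect_tr, zero_add, div_eq_mul_one_div, mul_comm]
    rfl
  rw [h1, YM.EX_smul, YM.EX_tr μ (YM.zt l x)
    (fun U : YM.Ed 4 l → G => YM.rt B.toLD (YM.rect U 0 i j R T))]
  ring

/-- the tautological representation -/
def tau (G : Subgroup (UU N)) : G →* Matrix.unitaryGroup (Fin N) ℂ := G.subtype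

lemma tau_cont : Continuous (tau G) := continuous_subtype_val

lemma tau_inj : Function.Injective (tau G) := Subtype.val_injective

lemma rt_eq (g : G) : TH964.CF.rt (tau G) g = (trace (mt g)).re := rfl

/-- the two forms of the weight -/
lemma action_cf [NeZero l] (β : ℝ) : ∃ c : ℝ, ∀ U : Link l → G,
    TH964.CF.action (tau G) β U = c - β * action U := by
  refine ⟨β * ∑ x : Fin 4 → ZMod l, ∑ i : Fin 4, ∑ j : Fin 4, if i < j then (N : ℝ) else 0,
    fun U => ?_⟩
  unfold TH964.CF.action action
  rw [← mul_sub, ← Finset.sum_sub_distrib]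
  congr 1
  refine Finset.sum_congr rfl fun x _ => ?_
  rw [← Finset.sum_sub_distrib]
  refine Finset.sum_congr rfl fun i _ => ?_
  rw [← Finset.sum_sub_distrib]
  refine Finset.sum_congr rfl fun j _ => ?_
  by_cases h : i < j
  · simp only [h, if_true]
    rw [trace_sub, trace_one, Fintype.card_fin, Complex.sub_re, Complex.natCast_re,
      sub_sub_cancel]
    rfl
  · simp [h]

/-- the two forms of the expectation -/
lemma gibbs_eq [NeZero l] (β : ℝ) (F : (LinkZ → G) → ℝ) :
    ∫ U : Link l → G, F (per U) ∂(TH964.CF.gibbs μ (tau G) β l) = expect l μ β F := by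
  obtain ⟨c, hc⟩ := action_cf (G := G) (l := l) β
  unfold TH964.CF.gibbs
  rw [integral_tilted]
  have h1 : ∀ U : Link l → G, Real.exp (TH964.CF.action (tau G) β U) =
      Real.exp c * Real.exp (-(β * action U)) := fun U => by
    rw [hc, ← Real.exp_add]
    congr 1
  simp only [h1]
  rw [integral_const_mul]
  unfold expect
  rw [← integral_div]
  refine integral_congr_ae (Filter.Eventually.of_forall fun U => ?_)
  have h2 := (Real.exp_pos c).ne'
  simp only [smul_eq_mul]
  rw [mul_div_mul_left _ _ h2]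
  ring

include B in
/-- the infinite volume limit as a linear functional -/
lemma isLimit {β : ℝ} {ν : Measure (LinkZ → G)} (hν : IsInfVol μ β ν) :
    H608TS.IsLimit μ (tau G) β (fun F => ∫ V, F V ∂ν) := by
  have := hν.prob
  obtain ⟨s, hs, hlim⟩ := hν.lim
  refine ⟨map s atTop, inferInstance, hs, fun F hF => ?_⟩
  have hFc : Continuous F := hF.1
  rw [tendsto_map'_iff]
  have hint : ∀ {ρ : Measure (LinkZ → G)} [IsProbabilityMeasure ρ], Integrable F ρ := by
    intro ρ _
    exact hFc.integrable_of_hasCompactSupport (HasCompactSupport.of_compactSpace _)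
  have hre : Continuous fun V => (F V).re := Complex.continuous_re.comp hFc
  have him : Continuous fun V => (F V).im := Complex.continuous_im.comp hFc
  have e1 : ∀ j : ℕ, ∫ U : Link (2 * s j + 2) → G, F (per U)
      ∂(TH964.CF.gibbs μ (tau G) β (2 * s j + 2)) =
      (expect (2 * (s j + 1)) μ β (fun V => (F V).re) : ℂ) +
        (expect (2 * (s j + 1)) μ β (fun V => (F V).im) : ℂ) * Complex.I := by
    intro j
    have hp : IsProbabilityMeasure (TH964.CF.gibbs μ (tau G) β (2 * s j + 2)) := by
      obtain ⟨c, hc⟩ := action_cf (G := G) (l := 2 * s j + 2) β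
      refine isProbabilityMeasure_tilted ?_
      have h1 : Continuous fun U : Link (2 * s j + 2) → G =>
          Real.exp (TH964.CF.action (tau G) β U) := by
        simp only [hc]
        exact Real.continuous_exp.comp (continuous_const.sub
          (continuous_const.mul (action_cont B)))
      exact h1.integrable_of_hasCompactSupport (HasCompactSupport.of_compactSpace _)
    have hi : Integrable (fun U : Link (2 * s j + 2) → G => F (per U))
        (TH964.CF.gibbs μ (tau G) β (2 * s j + 2)) :=
      (hFc.comp per_cont).integrable_of_hasCompactSupport (HasCompactSupport.of_compactSpace _)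
    have h1 := integral_re_add_im (𝕜 := ℂ) hi
    have h2 := gibbs_eq μ (l := 2 * s j + 2) β (fun V => (F V).re)
    have h3 := gibbs_eq μ (l := 2 * s j + 2) β (fun V => (F V).im)
    have e : (expect (2 * s j + 2) μ β (fun V => (F V).re) : ℂ) +
        (expect (2 * s j + 2) μ β (fun V => (F V).im) : ℂ) * Complex.I =
        (expect (2 * (s j + 1)) μ β (fun V => (F V).re) : ℂ) +
        (expect (2 * (s j + 1)) μ β (fun V => (F V).im) : ℂ) * Complex.I := rfl
    rw [← e, ← h2, ← h3, ← h1]
    rfl
  have e2 : ∫ V, F V ∂ν = ((∫ V, (F V).re ∂ν : ℝ) : ℂ) + ((∫ V, (F V).im ∂ν : ℝ) : ℂ) *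
      Complex.I := by
    have h1 := integral_re_add_im (𝕜 := ℂ) (hint (ρ := ν))
    rw [← h1]
    rfl
  show Tendsto _ atTop (𝓝 (∫ V, F V ∂ν))
  rw [e2]
  refine (((Complex.continuous_ofReal.tendsto _).comp (hlim _ hre)).add
    (((Complex.continuous_ofReal.tendsto _).comp (hlim _ him)).mul_const Complex.I)).congr
    fun j => ?_
  exact (e1 j).symm

lemma line_seg (V : LinkZ → G) (i : Fin 4) (k : ℕ) (x : Fin 4 → ℤ) :
    line V i k x = TH964.CF.seg V x i k := by
  induction k generalizing x with
  | zero => rfl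
  | succ k ih =>
    rw [H55.YM.seg_cons, ← ih]
    rfl

lemma single_ev (i : Fin 4) (k : ℕ) :
    (Pi.single i (k : ℤ) : Fin 4 → ℤ) = k • TH964.CF.ev ℤ i := by
  funext j
  unfold TH964.CF.ev
  by_cases h : j = i
  · subst h; simp
  · simp [h]

lemma loop_rect (V : LinkZ → G) (x : Fin 4 → ℤ) (i j : Fin 4) (R T : ℕ) :
    loop V x i j R T = TH964.CF.rect V x i j R T := by
  unfold loop TH964.CF.rect
  simp only [line_seg, single_ev]

lemma trace_cont (f : (LinkZ → G) → G) (hf : Continuous f) :
    Continuous fun V : LinkZ → G => trace (tau G (f V) : Mt N) :=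
  Continuous.matrix_trace (continuous_subtype_val.comp (tau_cont.comp hf))

/-- Wilson loops in the form of the library -/
lemma wilson_eq {ν : Measure (LinkZ → G)} [IsProbabilityMeasure ν] (x : Fin 4 → ℤ)
    (i j : Fin 4) (R T : ℕ) : wilson ν x i j R T =
      (∫ V, trace (tau G (TH964.CF.rect V x i j R T) : Mt N) ∂ν).re / N := by
  unfold wilson
  rw [integral_div]
  congr 1
  have hc : Continuous fun V : LinkZ → G => trace (tau G (TH964.CF.rect V x i j R T) : Mt N) := by
    simp only [← loop_rect]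
    refine trace_cont _ ?_
    exact (((line_cont _ _ _).mul (line_cont _ _ _)).mul (line_cont _ _ _).inv).mul
      (line_cont _ _ _).inv
  have hi : Integrable (fun V : LinkZ → G =>
      trace (tau G (TH964.CF.rect V x i j R T) : Mt N)) ν :=
    hc.integrable_of_hasCompactSupport (HasCompactSupport.of_compactSpace _)
  have h1 := integral_re (𝕜 := ℂ) hi
  simp only [loop_rect]
  exact h1

/-- the trace around the loop of a path -/
lemma lp_eq (B : YM.Frame G n) {R : ℕ} {w : List (Fin 4 × Bool)}
    (hw : Y15.dz 0 w = Pi.single 0 (R : ℤ)) (t : ℕ) (V : LinkZ → G) :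
    (trace (tau G (H55.YM.lp R w t V) : Mt N)).re =
      Y15.Wz B.toLD 1 (-(R • TH964.CF.ev ℤ 0)) w t V := by
  have h1 : Y15.dz (-(R • TH964.CF.ev ℤ 0)) w = 0 := by
    have h2 := Y15.dz_add 0 (-(R • TH964.CF.ev ℤ 0)) w
    rw [zero_add, hw, single_ev] at h2
    rw [h2]
    abel
  unfold Y15.Wz H55.YM.lp
  rw [h1, H55.YM.hz_rep', H55.YM.hz_rep', single_ev]
  rfl

include B in
/-- the loops of a path decay at least as fast as the loops of the straight path -/
lemma path_low {β : ℝ} (hβ : 0 < β) {ν : Measure (LinkZ → G)} (hν : IsInfVol μ β ν)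
    {h : ℕ} (hh : 0 < h) {P : ℝ}
    (hP : ∀ k : ℕ, wilson ν 0 0 1 (2 * h) (2 * k) ≤ Real.exp (-(P * (2 * k))))
    {w : List (Fin 4 × Bool)} (hw : Y15.dz 0 w = Pi.single 0 ((2 * h : ℕ) : ℤ))
    (hw1 : ∀ e ∈ w, e.1 ≠ 1) (k : ℕ) :
    ∫ V, Y15.Wz B.toLD 1 (-((2 * h) • TH964.CF.ev ℤ 0)) w (2 * k) V ∂ν ≤
      Real.exp (-(2 * P)) ^ k *
        ∫ V, Y15.Wz B.toLD 1 (-((2 * h) • TH964.CF.ev ℤ 0)) w 0 V ∂ν := by
  have := hν.prob
  have hΛ := isLimit μ B hν
  have : T2Space G := inferInstance
  have hPG : H608TS.PotGe (tau G) (fun F => ∫ V, F V ∂ν) (2 * h) P := by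
    refine ⟨N, fun k => ?_⟩
    have h1 := hP k
    rw [wilson_eq] at h1
    unfold H608TS.W0
    rcases Nat.eq_zero_or_pos N with hN | hN
    · subst hN
      have e : ∀ A : Mt 0, trace A = 0 := fun A => by simp [Matrix.trace]
      simp only [e]
      simp
    · have hN0 : (0 : ℝ) < N := by exact_mod_cast hN
      rw [div_le_iff₀ hN0] at h1
      linarith
  have key := H55.YM.straight_low (tau_cont (G := G)) tau_inj hβ hΛ hh hPG w hw1 k
  have e : ∀ t : ℕ, (∫ V, starRingEnd ℂ (trace (tau G (H55.YM.lp (2 * h) w t V) : Mt N)) ∂ν).re =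
      ∫ V, Y15.Wz B.toLD 1 (-((2 * h) • TH964.CF.ev ℤ 0)) w t V ∂ν := by
    intro t
    have hc : Continuous fun V : LinkZ → G => H55.YM.lp (2 * h) w t V := by
      unfold H55.YM.lp
      have h1 : ∀ (x : Fin 4 → ℤ), Continuous fun V : LinkZ → G => TH964.CF.seg V x 1 t := by
        intro x
        simp only [← line_seg]
        exact line_cont _ _ _
      exact (((Y15.hz_cont _ _).mul (h1 _)).mul (Y15.hz_cont _ _).inv).mul (h1 _).inv
    have hi : Integrable (fun V : LinkZ → G =>
        starRingEnd ℂ (trace (tau G (H55.YM.lp (2 * h) w t V) : Mt N))) ν :=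
      (Complex.continuous_conj.comp (trace_cont _ hc)).integrable_of_hasCompactSupport
        (HasCompactSupport.of_compactSpace _)
    have h1 := integral_re (𝕜 := ℂ) hi
    rw [show (∫ V, starRingEnd ℂ (trace (tau G (H55.YM.lp (2 * h) w t V) : Mt N)) ∂ν).re =
      RCLike.re (∫ V, starRingEnd ℂ (trace (tau G (H55.YM.lp (2 * h) w t V) : Mt N)) ∂ν) from rfl,
      ← h1]
    refine integral_congr_ae (Filter.Eventually.of_forall fun V => ?_)
    simp only
    rw [← lp_eq B hw t V]
    exact Complex.conj_re _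
  rw [e, e] at key
  exact key

end bridge

/-- **The string tension at weak coupling.** -/
theorem result {N : ℕ} (hN : 1 ≤ N) : ∃ C : ℝ, 0 < C ∧
    ∀ G : Subgroup (UU N), IsClosed (G : Set (UU N)) →
    ∀ [MeasurableSpace G] [BorelSpace G] (μ : Measure G) [IsProbabilityMeasure μ]
      [μ.IsHaarMeasure] (β : ℝ), C ≤ β →
      (∀ ν : Measure (LinkZ → G), IsInfVol μ β ν → ∃ (V : ℕ → ℝ) (σ : ℝ),
        (∀ (x : Fin 4 → ℤ) (i j : Fin 4), i ≠ j →
          (∀ R T : ℕ, 0 < wilson ν x i j R T) ∧
          (∀ R : ℕ, Tendsto (fun T : ℕ => -Real.log (wilson ν x i j R T) / T) atTop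
            (𝓝 (V R))) ∧
          Tendsto (fun p : ℕ × ℕ => -Real.log (wilson ν x i j p.1 p.2) / (p.1 * p.2))
            (atTop ×ˢ atTop) (𝓝 σ)) ∧
        Tendsto (fun R : ℕ => V R / R) atTop (𝓝 σ) ∧
        0 ≤ σ ∧ σ ≤ C * Real.log β / β ^ 3) ∧
      ∃ ν : Measure (LinkZ → G), IsInfVol μ β ν := by
  obtain ⟨D, hD⟩ : ∃ D : ℝ, D = Q204.PL.Cd 4 * N := ⟨_, rfl⟩
  have hN1 : (1 : ℝ) ≤ N := by exact_mod_cast hN
  have hD1 : 1 ≤ D := by
    rw [hD]; exact one_le_mul_of_one_le_of_one_le (Q204.PL.Cd_ge 4) hN1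
  have hK := H55.YM.KO_pos hN 4
  have ht3 := H55.YM.tO_three N 4
  refine ⟨H55.YM.KO N 4 + H55.YM.tO N 4 + 8 * D, by linarith, ?_⟩
  intro G hG _ _ μ _ _ β hCβ
  have hβ3 : 3 ≤ β := by linarith
  have hβ : 0 < β := by linarith
  have hlog : 0 ≤ Real.log β := Real.log_nonneg (by linarith)
  have : CompactSpace G := by
    have h1 : IsCompact (G : Set (UU N)) := hG.isCompact
    exact isCompact_iff_compactSpace.1 h1
  have h00 : SecondCountableTopology (UU N) := TopologicalSpace.Subtype.secondCountableTopology _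
  have : SecondCountableTopology G := TopologicalSpace.Subtype.secondCountableTopology _
  have := right_inv μ
  have := inv_inv' μ
  obtain ⟨n, ⟨B⟩⟩ := YM.exists_frame hG
  refine ⟨fun ν hν => ?_, exists_infVol μ B β⟩
  have hprob := hν.prob
  have hΛ := isLimit μ B hν
  obtain ⟨s, hs, hlim⟩ := hν.lim
  obtain ⟨w, hwd⟩ : ∃ w : ℕ → ℕ → ℝ, w = fun R T => wilson ν 0 0 1 R T := ⟨_, rfl⟩
  have hw : ∀ R T : ℕ,
      Tendsto (fun k => YM.wR2 μ B.toLD (s k + 1) β (0 : Fin 4) 1 R T) atTop (𝓝 (w R T)) := by
    intro R T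
    rw [hwd]
    refine (hlim _ (loop_cont 0 0 1 R T)).congr fun k => ?_
    exact expect_loop μ B β 0 0 1 R T
  have h01 : (0 : Fin 4) ≠ 1 := by decide
  have hdir : ∀ (x : Fin 4 → ℤ) (i j : Fin 4), i ≠ j → ∀ R T : ℕ, wilson ν x i j R T = w R T := by
    intro x i j hij R T
    have h1 := H608TS.loop_sym H189.SC.SYM.main (tau_cont (G := G)) (tau_cont (G := G)) hΛ x hij R T
    have h2 := H608TS.loop_sym H189.SC.SYM.main (tau_cont (G := G)) (tau_cont (G := G)) hΛ 0 h01 R T
    rw [hwd]
    simp only
    rw [wilson_eq, wilson_eq]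
    simp only at h1 h2
    rw [h1, h2]
  have hev : ∀ K : ℕ, ∀ᶠ k in atTop, K < s k + 1 := fun K => by
    filter_upwards [hs.eventually_ge_atTop K] with k hk
    omega
  obtain ⟨hlow, -⟩ := Q204.PL.pot_two μ (L := B.toLD) hN (by norm_num : 4 ≤ 4) (β := β)
    (by rw [← hD]; linarith) h01 (w := w) hs hw
  have w0 : ∀ T, w 0 T = 1 := fun T => by
    refine tendsto_nhds_unique (hw 0 T) ?_
    simp only [YM.wR2_zero μ hN]
    exact tendsto_const_nhds
  have w0' : ∀ R, w R 0 = 1 := fun R => by
    refine tendsto_nhds_unique (hw R 0) ?_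
    have : ∀ k, YM.wR2 μ B.toLD (s k + 1) β (0 : Fin 4) 1 R 0 = 1 := fun k => by
      rw [YM.wR2_swap, YM.wR2_zero μ hN]
    simp only [this]
    exact tendsto_const_nhds
  have wle : ∀ R T, w R T ≤ 1 := fun R T =>
    le_of_tendsto' (hw R T) fun k => YM.wR2_le μ hN _ _ _ _ _
  have wc : ∀ R T, w (R + 1) T ^ 2 ≤ w R T * w (R + 2) T := fun R T => by
    refine le_of_tendsto_of_tendsto ((hw (R + 1) T).pow 2) ((hw R T).mul (hw (R + 2) T)) ?_
    filter_upwards [hev (R + 2)] with k hk
    exact YM.wR2_cs μ (by omega) h01 hβ.le (by omega) T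
  have wc' : ∀ R T, w R (T + 1) ^ 2 ≤ w R T * w R (T + 2) := fun R T => by
    refine le_of_tendsto_of_tendsto ((hw R (T + 1)).pow 2) ((hw R T).mul (hw R (T + 2))) ?_
    filter_upwards [hev (T + 2)] with k hk
    rw [YM.wR2_swap μ β (0 : Fin 4) 1 R (T + 1), YM.wR2_swap μ β (0 : Fin 4) 1 R T,
      YM.wR2_swap μ β (0 : Fin 4) 1 R (T + 2)]
    exact YM.wR2_cs μ (by omega) h01.symm hβ.le (by omega) R
  obtain ⟨hpos, P, σ, hP, hσ, hσ0, hPle, hσle⟩ := YM.double w0 w0' wle wc wc'
    ((Real.exp_pos _).trans_le (hlow 1 1))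
  refine ⟨P, σ, fun x i j hij => ⟨fun R T => ?_, fun R => ?_, ?_⟩, hσ, hσ0, ?_⟩
  · rw [hdir x i j hij]; exact hpos R T
  · simp only [hdir x i j hij]; exact hP R
  · simp only [hdir x i j hij]
    exact H55.YM.joint w0 w0' hpos wc wc' hP hσ hPle hσle
  · -- the string tension
    obtain ⟨R₀, hR₀⟩ := H55.YM.soft_path' μ (L := B.toLD) (d := 4) hN le_rfl β (by linarith)
      0 1 h01 s hs (fun F => ∫ V, F V ∂ν) fun F hF =>
      (hlim F hF).congr fun k => expect_eq μ B β F
    obtain ⟨h, hh⟩ : ∃ h, h = R₀ + 1 := ⟨_, rfl⟩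
    obtain ⟨v, hv1, hv2, hv3, V', hV0, hV1, hV2⟩ := hR₀ (2 * h) (by omega)
    obtain ⟨hV3, hV4⟩ := hV2 (-((2 * h) • TH964.CF.ev ℤ 0))
    have hh0 : 0 < h := by omega
    have h2h : (0 : ℝ) < ((2 * h : ℕ) : ℝ) := by exact_mod_cast (by omega : 0 < 2 * h)
    have hN0 : (0 : ℝ) < N := by linarith
    have hPk : ∀ k : ℕ, wilson ν 0 0 1 (2 * h) (2 * k) ≤
        Real.exp (-(P (2 * h) * (2 * k))) := by
      intro k
      rw [hdir 0 0 1 h01]
      rcases Nat.eq_zero_or_pos k with h0 | h0
      · subst h0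
        simp [w0']
      · have h1 := hPle (2 * h) (2 * k) (by omega)
        have h2 : (0 : ℝ) < ((2 * k : ℕ) : ℝ) := by exact_mod_cast (by omega : 0 < 2 * k)
        rw [le_div_iff₀ h2] at h1
        rw [← Real.exp_log (hpos (2 * h) (2 * k))]
        refine Real.exp_le_exp.2 ?_
        push_cast at h1
        linarith
    have hmain := path_low μ B hβ hν hh0 hPk hv1 hv2
    have hX0 : ∫ V, Y15.Wz B.toLD 1 (-((2 * h) • TH964.CF.ev ℤ 0)) v 0 V ∂ν = N := by
      simp only [Y15.Wz_zero]
      simp
    rw [hX0] at hmain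
    have hPV : P (2 * h) ≤ V' := by
      have h1 : Tendsto (fun k : ℕ => 2 * (k + 1)) atTop atTop :=
        tendsto_atTop_mono (fun k => by simp only [id]; omega) tendsto_id
      refine ge_of_tendsto' (hV4.comp h1) fun k => ?_
      simp only [Function.comp_apply]
      have h2 : (0 : ℝ) < ((2 * (k + 1) : ℕ) : ℝ) := by
        exact_mod_cast (by omega : 0 < 2 * (k + 1))
      rw [le_div_iff₀ h2]
      have h3 := hmain (k + 1)
      have h4 := hV3 (2 * (k + 1))
      have h5 : (∫ V, Y15.Wz B.toLD 1 (-((2 * h) • TH964.CF.ev ℤ 0)) v (2 * (k + 1)) V ∂ν) / N ≤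
          Real.exp (-(2 * P (2 * h))) ^ (k + 1) := by
        rw [div_le_iff₀ hN0]
        exact h3
      have h6 := Real.log_le_log h4 h5
      rw [Real.log_pow, Real.log_exp] at h6
      push_cast at h6 ⊢
      linarith
    have h1 := hσle (2 * h) (by omega)
    have h2 : P (2 * h) / ((2 * h : ℕ) : ℝ) ≤ H55.YM.rO N 4 β := by
      rw [div_le_iff₀ h2h]
      exact hPV.trans hV1
    have h3 : H55.YM.rO N 4 β ≤ (H55.YM.KO N 4 + H55.YM.tO N 4 + 8 * D) * Real.log β / β ^ 3 := by
      unfold H55.YM.rO
      refine div_le_div_of_nonneg_right ?_ (by positivity)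
      exact mul_le_mul_of_nonneg_right (by linarith) hlog
    linarith

end

end Pool.Agent.Results.MP_7f377f_mp.StringTensionCubic
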